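import Pool.Agent.Helper54.S4.Stmts

/-! Module ORD4: the fans force the order of the ordinates and the orientations. -/

set_option autoImplicit false

namespace Pool.Agent.Helper54.S4

open Finset Pool.Agent.Helper54.SP

theorem ord4_fan (hADJ0 : SP.ST_ADJ0) (hADJ : SP.ST_ADJ) (hLINK : SP.ST_LINK) (N m : ℕ)
    (X : ℕ → ℕ → ℝ)
    (c o : ℕ) (S : ℕ → Prop) (key : ℕ → ℕ) (hc : c < m) (ho : o < N) (hSo : ∀ p, S p → p ≠ o)
    (hinj : ∀ p q, p < N → q < N → S p → S q → key p = key q → p = q)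
    (hOS : ∀ p q, Nbr N S key p q → OS (3 + m) X (N + m) ([o, p, q] ++ aex N m c)) :
    ∀ p q p' q', Nbr N S key p q → Nbr N S key p' q' →
      0 < br N m X o p q * br N m X o p' q' := by
  refine hLINK N S key (fun p q => br N m X o p q) hinj ?_ ?_
  · intro p q h
    exact hADJ0 N m X c o p q hc ho h.1 h.2.1 (hOS p q h)
  · intro p q r h h'
    refine hADJ N m X c o p q r hc ?_ ho h.1 h.2.1 h'.2.1 (hOS p q h) (hOS q r h')
    have e1 : key p < key q := h.2.2.2.2.1
    have e2 : key q < key r := h'.2.2.2.2.1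
    have n1 : p ≠ q := by rintro rfl; omega
    have n2 : q ≠ r := by rintro rfl; omega
    have n3 : p ≠ r := by rintro rfl; omega
    have m1 := hSo p h.2.2.1
    have m2 := hSo q h.2.2.2.1
    have m3 := hSo r h'.2.2.2.1
    simp only [List.nodup_cons, List.mem_cons, List.not_mem_nil, or_false, not_or,
      not_false_eq_true, List.nodup_nil, and_true]
    exact ⟨⟨m1.symm, m2.symm, m3.symm⟩, ⟨n1, n3⟩, n2⟩

theorem ord4_sign {τ A A' E E' : ℝ} (hτ : τ ≠ 0) (hA : 0 < A) (hA' : 0 < A')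
    (h : 0 < τ * A * E * (τ * A' * E')) : 0 < E * E' := by
  have h1 : τ * A * E * (τ * A' * E') = (τ ^ 2 * A * A') * (E * E') := by ring
  rw [h1] at h
  have h2 : 0 < τ ^ 2 * A * A' := by positivity
  exact (pos_iff_pos_of_mul_pos h).1 h2

theorem ord4_kt (t : Bool) : ∀ T ∈ KT t, T.1 < 6 ∧ T.2.1 < 6 ∧ T.2.2 < 6 := by
  cases t <;> decide

theorem ord4_aex (N : ℕ) : aex N 2 1 = [N] := by
  have h : apx N 2 = [N, N + 1] := rfl
  unfold aex
  rw [h]
  simp

theorem st_ORD4 (hLV4 : ST_LV4) (hNORM : SP.ST_NORM) (hADJ : SP.ST_ADJ) (hHUL : SP.ST_HUL)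
    (hMONO : SP.ST_MONO) (hLINK : SP.ST_LINK) (hDT3 : SP.ST_DT3) (hBR : SP.ST_BR)
    (hADJ0 : SP.ST_ADJ0) (_hOSP : SP.ST_OSP) : ST_ORD4 := by
  intro Γ nw X hWF hlen hF hT
  obtain ⟨l0, l1, l2, l3, -, -⟩ := hLV4 Γ nw hWF
  obtain ⟨f1, -, f01, f02, f12, -, -⟩ := hF
  obtain ⟨N, hN⟩ : ∃ N, N = N4 Γ := ⟨_, rfl⟩
  have hNv : N = 3 + 24 * Γ.length := hN
  rw [← hN] at f1 f01 f02 f12 l0 l1 l3 hT
  have g01 : OS (3 + 2) X (N + 2) ([0, 1] ++ apx N 2) := f01
  have g02 : OS (3 + 2) X (N + 2) ([0, 2] ++ apx N 2) := f02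
  have g12 : OS (3 + 2) X (N + 2) ([1, 2] ++ apx N 2) := f12
  have hb2 : 0 < br N 2 X 0 1 2 * br N 2 X 0 1 2 :=
    hHUL N 2 X 0 1 2 2 (by omega) (by omega) (by omega) (by omega) (by omega) (by omega)
      (by omega) (by omega) g01
  have hb : br N 2 X 0 1 2 ≠ 0 := by
    intro h
    rw [h] at hb2
    simp at hb2
  obtain ⟨x, y, w, τ, hτ, hw, hx2, hy2, hx3, hy3, hfor⟩ := hNORM N 2 X (by omega) hb (by
    intro p hp hpN
    refine ⟨?_, ?_, ?_⟩
    · exact hHUL N 2 X 0 1 2 p (by omega) (by omega) (by omega) hpN (by omega) (by omega)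
        (by omega) (by omega) g01
    · have h := hHUL N 2 X 0 2 1 p (by omega) (by omega) (by omega) hpN (by omega) (by omega)
        (by omega) (by omega) g02
      rw [(hBR N 2 X 0 1 2).2.1, (hBR N 2 X 0 p 2).2.1] at h
      linarith
    · have h := hHUL N 2 X 1 2 0 p (by omega) (by omega) (by omega) hpN (by omega) (by omega)
        (by omega) (by omega) g12
      rw [(hBR N 2 X 0 1 2).2.2.1, (hBR N 2 X p 1 2).2.2.1] at h
      exact h)
  obtain ⟨-, d0, d1, d2⟩ := hDT3 x y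
  have hinj : ∀ p q, p < N → q < N → 2 ≤ p → 2 ≤ q → lv Γ nw p = lv Γ nw q → p = q :=
    fun p q hp hq h h' e => l3 p q (by omega) (by omega) hp hq e
  have hsg : ∀ p q p' q', Nbr N (fun p => 2 ≤ p) (lv Γ nw) p q →
      Nbr N (fun p => 2 ≤ p) (lv Γ nw) p' q' → 0 < (y p - y q) * (y p' - y q') := by
    intro p q p' q' h h'
    have h1 := ord4_fan hADJ0 hADJ hLINK N 2 X 1 1 (fun p => 2 ≤ p) (lv Γ nw) (by omega)
      (by omega) (fun p hp => by omega) hinj (by
        intro p q h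
        rw [ord4_aex]
        refine f1 p q ⟨h.1, h.2.1, ?_, ?_, h.2.2.2.2.1, ?_⟩
        · have := h.2.2.1
          omega
        · have := h.2.2.2.1
          omega
        · intro r hr hr1 hlt
          by_cases hr0 : r = 0
          · have h2 := h.2.2.2.1
            have h3 := l0 q h.2.1 (by omega)
            rw [hr0] at hlt
            omega
          · exact h.2.2.2.2.2 r hr (by omega) hlt) p q p' q' h h'
    rw [hfor 1 p q (by omega) h.1 h.2.1, hfor 1 p' q' (by omega) h'.1 h'.2.1,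
      d1 p q h.2.2.1 h.2.2.2.1, d1 p' q' h'.2.2.1 h'.2.2.2.1] at h1
    exact ord4_sign hτ (mul_pos (mul_pos (hw 1 (by omega)) (hw p h.1)) (hw q h.2.1))
      (mul_pos (mul_pos (hw 1 (by omega)) (hw p' h'.1)) (hw q' h'.2.1)) h1
  have hstep : ∀ p q, Nbr N (fun p => 2 ≤ p) (lv Γ nw) p q → y p < y q := by
    intro p q h
    by_contra hcon
    have h0 := hsg p q p q h h
    have hlt : y q < y p := by
      rcases (not_lt.1 hcon).lt_or_eq with h1 | h1
      · exact h1
      · rw [h1] at h0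
        simp at h0
    have hall := hMONO N (fun p => 2 ≤ p) (lv Γ nw) (fun p q => y q < y p) hinj
      (fun p q r _ _ _ _ _ _ h h' => h'.trans h) (by
        intro p' q' h'
        have h1 := hsg p q p' q' h h'
        have h2 : 0 < y p - y q := by linarith
        have h3 : 0 < y p' - y q' := (pos_iff_pos_of_mul_pos h1).1 h2
        show y q' < y p'
        linarith) 2 3 (by omega) (by omega) le_rfl (by omega) (by
          rw [l2]
          exact l1 3 le_rfl (by omega))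
    have h4 : y 3 < y 2 := hall
    rw [hy2, hy3] at h4
    linarith
  have hyo := hMONO N (fun p => 2 ≤ p) (lv Γ nw) (fun p q => y p < y q) hinj
      (fun p q r _ _ _ _ _ _ h h' => h.trans h') hstep
  refine ⟨x, y, ?_, ?_⟩
  · intro p q hp hq hpN hqN h
    rw [← hN] at hpN hqN
    exact hyo p q hpN hqN hp hq h
  · intro j hj T hTm
    obtain ⟨t1, t2, t3⟩ := ord4_kt (tj j) T hTm
    have h := hT j hj T hTm
    have b : ∀ i, i < 6 → pt j i < N ∧ 2 ≤ pt j i := by
      intro i hi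
      unfold pt
      omega
    obtain ⟨p1, p2⟩ := b T.1 t1
    obtain ⟨q1, q2⟩ := b T.2.1 t2
    obtain ⟨r1, r2⟩ := b T.2.2 t3
    rw [hfor _ _ _ p1 q1 r1, hfor 0 2 3 (by omega) (by omega) (by omega),
      d2 _ _ _ p2 q2 r2, d0 2 3 le_rfl (by omega), hx2, hx3] at h
    have hw0 := hw 0 (by omega)
    have hw2 := hw 2 (by omega)
    have hw3 := hw 3 (by omega)
    have wp := hw _ p1
    have wq := hw _ q1
    have wr := hw _ r1
    unfold D3
    set E : ℝ := (x (pt j T.2.1) - x (pt j T.1)) * (y (pt j T.2.2) - y (pt j T.1)) -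
      (x (pt j T.2.2) - x (pt j T.1)) * (y (pt j T.2.1) - y (pt j T.1)) with hE
    have h5 : sb (tb4 (tj j) T.1 T.2.1 T.2.2) *
        (τ * (w (pt j T.1) * w (pt j T.2.1) * w (pt j T.2.2)) * E *
          (τ * (w 0 * w 2 * w 3) * (1 - 0))) =
        (τ ^ 2 * (w (pt j T.1) * w (pt j T.2.1) * w (pt j T.2.2)) * (w 0 * w 2 * w 3)) *
          (sb (tb4 (tj j) T.1 T.2.1 T.2.2) * E) := by ring
    rw [h5] at h
    have h6 : 0 < τ ^ 2 * (w (pt j T.1) * w (pt j T.2.1) * w (pt j T.2.2)) *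
        (w 0 * w 2 * w 3) := by positivity
    exact (pos_iff_pos_of_mul_pos h).1 h6

end Pool.Agent.Helper54.S4
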